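import Pool.Agent.Helper14.LE.St

/-!
Project LE, module LFT (helper9).
-/

set_option autoImplicit false

namespace Pool.Agent.Helper9.LE

open Pool.Agent.Helper14.LK Pool.Agent.Helper14.LE
open scoped ContDiff Topology
open MeasureTheory Set Filter

section

variable {W : Type} [NormedAddCommGroup W] [NormedSpace ℝ W]

/-- the logarithmic derivative -/
private noncomputable def ld (v : W → ℂ) (x : W) : W →L[ℝ] ℂ :=
  ((ContinuousLinearMap.mul ℝ ℂ) ((v x)⁻¹)).comp (fderiv ℝ v x)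

private theorem ld_apply (v : W → ℂ) (x a : W) : ld v x a = (v x)⁻¹ * fderiv ℝ v x a := rfl

private theorem ld_smooth {v : W → ℂ} (hv : ContDiff ℝ ∞ v) (h0 : ∀ x, v x ≠ 0) :
    ContDiff ℝ ∞ (ld v) := by
  have h1 : ContDiff ℝ ∞ (fun x => (ContinuousLinearMap.mul ℝ ℂ) ((v x)⁻¹)) :=
    (ContinuousLinearMap.mul ℝ ℂ).contDiff.comp (hv.inv h0)
  have h2 : ContDiff ℝ ∞ (fderiv ℝ v) := hv.fderiv_right (m := ∞) (by norm_cast)
  exact h1.clm_comp h2

/-- derivative of `x ↦ ld v x b` along a line -/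
private theorem ld_line {v : W → ℂ} (hv : ContDiff ℝ ∞ v) (h0 : ∀ x, v x ≠ 0) (x a b : W) :
    HasDerivAt (fun t : ℝ => ld v (x + t • a) b)
      (-(fderiv ℝ v x a) / (v x) ^ 2 * fderiv ℝ v x b + (v x)⁻¹ * fderiv ℝ (fderiv ℝ v) x a b) 0 := by
  have hc : HasDerivAt (fun t : ℝ => x + t • a) a 0 := by
    have h := ((hasDerivAt_id (0 : ℝ)).smul_const a).const_add x
    rw [one_smul] at h
    exact h
  have hx0 : x + (0 : ℝ) • a = x := by simp
  have hv1 : HasFDerivAt v (fderiv ℝ v x) (x + (0 : ℝ) • a) := by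
    rw [hx0]
    exact ((hv.differentiable (by simp)) x).hasFDerivAt
  have h2 : ContDiff ℝ ∞ (fderiv ℝ v) := hv.fderiv_right (m := ∞) (by norm_cast)
  have hv2 : HasFDerivAt (fderiv ℝ v) (fderiv ℝ (fderiv ℝ v) x) (x + (0 : ℝ) • a) := by
    rw [hx0]
    exact ((h2.differentiable (by simp)) x).hasFDerivAt
  have k1 : HasDerivAt (fun t : ℝ => v (x + t • a)) (fderiv ℝ v x a) 0 :=
    hv1.comp_hasDerivAt (0 : ℝ) hc
  have k2 : HasDerivAt (fun t : ℝ => fderiv ℝ v (x + t • a)) (fderiv ℝ (fderiv ℝ v) x a) 0 :=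
    hv2.comp_hasDerivAt (0 : ℝ) hc
  have k3 : HasDerivAt (fun t : ℝ => fderiv ℝ v (x + t • a) b) (fderiv ℝ (fderiv ℝ v) x a b) 0 := by
    have := ((ContinuousLinearMap.apply ℝ ℂ b).hasFDerivAt
      (x := fderiv ℝ v (x + (0 : ℝ) • a))).comp_hasDerivAt (0 : ℝ) k2
    exact this
  have k4 := k1.fun_inv (h0 _)
  have k5 := k4.mul k3
  rw [hx0] at k5
  exact k5

private theorem ld_closed {v : W → ℂ} (hv : ContDiff ℝ ∞ v) (h0 : ∀ x, v x ≠ 0)
    (L : ℂ →L[ℝ] ℝ) (x a b : W) :
    fderiv ℝ (fun y => L.comp (ld v y)) x a b = fderiv ℝ (fun y => L.comp (ld v y)) x b a := by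
  have hs : ContDiff ℝ ∞ (fun y => L.comp (ld v y)) := contDiff_const.clm_comp (ld_smooth hv h0)
  have key : ∀ a b : W, fderiv ℝ (fun y => L.comp (ld v y)) x a b =
      L (-(fderiv ℝ v x a) / (v x) ^ 2 * fderiv ℝ v x b +
        (v x)⁻¹ * fderiv ℝ (fderiv ℝ v) x a b) := by
    intro a b
    have hc : HasDerivAt (fun t : ℝ => x + t • a) a 0 := by
      have h := ((hasDerivAt_id (0 : ℝ)).smul_const a).const_add x
      rw [one_smul] at h
      exact h
    have hx0 : x + (0 : ℝ) • a = x := by simp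
    have h1 : HasFDerivAt (fun y => L.comp (ld v y)) (fderiv ℝ (fun y => L.comp (ld v y)) x)
        (x + (0 : ℝ) • a) := by
      rw [hx0]
      exact ((hs.differentiable (by simp)) x).hasFDerivAt
    have h2 := h1.comp_hasDerivAt (0 : ℝ) hc
    have h3 := ((ContinuousLinearMap.apply ℝ ℝ b).hasFDerivAt
        (x := L.comp (ld v (x + (0 : ℝ) • a)))).comp_hasDerivAt (0 : ℝ) h2
    have h3 : HasDerivAt (fun t : ℝ => L (ld v (x + t • a) b))
        (fderiv ℝ (fun y => L.comp (ld v y)) x a b) 0 := h3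
    have h4 : HasDerivAt (fun t : ℝ => L (ld v (x + t • a) b))
        (L (-(fderiv ℝ v x a) / (v x) ^ 2 * fderiv ℝ v x b +
          (v x)⁻¹ * fderiv ℝ (fderiv ℝ v) x a b)) 0 :=
      (L.hasFDerivAt (x := ld v (x + (0 : ℝ) • a) b)).comp_hasDerivAt (0 : ℝ) (ld_line hv h0 x a b)
    exact h3.unique h4
  have hsym : fderiv ℝ (fderiv ℝ v) x a b = fderiv ℝ (fderiv ℝ v) x b a := by
    have := (hv.contDiffAt (x := x)).isSymmSndFDerivAt (by
      simp only [minSmoothness_of_isRCLikeNormedField]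
      norm_cast)
    exact this a b
  rw [key a b, key b a, hsym]
  congr 1
  ring

end

theorem hLFT (hPOI : StPOI) : StLFT := by
  intro W _ _ _ hdim v R hv h0 h1
  rcases le_or_gt R 0 with hR | hR
  · exact ⟨fun _ => 0, contDiff_const, fun _ _ => rfl, fun x => by
      rw [Complex.exp_zero, h1 x (hR.trans (norm_nonneg x))]⟩
  have hnt : Nontrivial W := by
    apply Module.nontrivial_of_finrank_pos (R := ℝ)
    omega
  obtain ⟨x₁, hx₁⟩ := exists_norm_eq W hR.le
  -- the derivative vanishes outside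
  have hD : ∀ x, R ≤ ‖x‖ → fderiv ℝ v x = 0 := by
    have hcl : IsClosed {x : W | fderiv ℝ v x = 0} :=
      isClosed_eq (hv.continuous_fderiv (by simp)) continuous_const
    have hsub : (Metric.closedBall (0 : W) R)ᶜ ⊆ {x : W | fderiv ℝ v x = 0} := by
      intro x hx
      have hev : v =ᶠ[𝓝 x] fun _ => (1 : ℂ) := by
        filter_upwards [Metric.isClosed_closedBall.isOpen_compl.mem_nhds hx] with y hy
        apply h1
        rw [mem_compl_iff, mem_closedBall_zero_iff, not_le] at hy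
        exact hy.le
      show fderiv ℝ v x = 0
      rw [hev.fderiv_eq]
      simp
    have hsub2 := closure_minimal hsub hcl
    rw [closure_compl, interior_closedBall (0 : W) hR.ne'] at hsub2
    intro x hx
    apply hsub2
    rw [mem_compl_iff, mem_ball_zero_iff, not_lt]
    exact hx
  have hld : ∀ x, R ≤ ‖x‖ → ld v x = 0 := by
    intro x hx
    unfold ld
    rw [hD x hx, ContinuousLinearMap.comp_zero]
  have hpart : ∀ L : ℂ →L[ℝ] ℝ, ∃ h : W → ℝ, ContDiff ℝ ∞ h ∧ (∀ x, fderiv ℝ h x = L.comp (ld v x)) ∧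
      ∀ x, R ≤ ‖x‖ → h x = 0 := by
    intro L
    have hs : ContDiff ℝ ∞ (fun y => L.comp (ld v y)) := contDiff_const.clm_comp (ld_smooth hv h0)
    obtain ⟨h, ha, hb, hc⟩ := hPOI W hdim (fun _ x => L.comp (ld v x))
      (hs.comp contDiff_snd) (fun t x a b => ld_closed hv h0 L x a b) R
      (fun t x hx => by rw [hld x hx, ContinuousLinearMap.comp_zero])
    refine ⟨h 0, ha.comp (contDiff_const.prodMk contDiff_id), hb 0, hc 0⟩
  obtain ⟨f, hf, hfd, hf0⟩ := hpart Complex.reCLM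
  obtain ⟨g, hg, hgd, hg0⟩ := hpart Complex.imCLM
  set l : W → ℂ := fun x => (f x : ℂ) + (g x : ℂ) * Complex.I with hl
  have hls : ContDiff ℝ ∞ l :=
    (Complex.ofRealCLM.contDiff.comp hf).add ((Complex.ofRealCLM.contDiff.comp hg).mul contDiff_const)
  have hl0 : ∀ x, R ≤ ‖x‖ → l x = 0 := by
    intro x hx
    simp [hl, hf0 x hx, hg0 x hx]
  have hld' : ∀ x a, fderiv ℝ l x a = ld v x a := by
    intro x a
    have e1 : HasFDerivAt f (fderiv ℝ f x) x := ((hf.differentiable (by simp)) x).hasFDerivAt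
    have e2 : HasFDerivAt g (fderiv ℝ g x) x := ((hg.differentiable (by simp)) x).hasFDerivAt
    have e3 : HasFDerivAt (fun y => (f y : ℂ)) (Complex.ofRealCLM.comp (fderiv ℝ f x)) x :=
      Complex.ofRealCLM.hasFDerivAt.comp x e1
    have e4 : HasFDerivAt (fun y => (g y : ℂ)) (Complex.ofRealCLM.comp (fderiv ℝ g x)) x :=
      Complex.ofRealCLM.hasFDerivAt.comp x e2
    have e5 := e3.add (e4.mul_const Complex.I)
    have e6 : fderiv ℝ l x = _ := e5.fderiv
    rw [e6, hfd, hgd]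
    apply Complex.ext <;> simp [mul_comm]
  refine ⟨l, hls, hl0, ?_⟩
  -- the quotient is constant
  have hq : ∀ x, HasFDerivAt (fun y => v y * Complex.exp (-l y)) (0 : W →L[ℝ] ℂ) x := by
    intro x
    have e1 : HasFDerivAt v (fderiv ℝ v x) x := ((hv.differentiable (by simp)) x).hasFDerivAt
    have e2 : HasFDerivAt l (fderiv ℝ l x) x := ((hls.differentiable (by simp)) x).hasFDerivAt
    have e3 : HasFDerivAt (fun y => Complex.exp (-l y)) (Complex.exp (-l x) • -(fderiv ℝ l x)) x :=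
      e2.neg.cexp
    have e4 := e1.mul e3
    refine e4.congr_fderiv (ContinuousLinearMap.ext fun a => ?_)
    have h2 := hld' x a
    rw [ld_apply] at h2
    have h3 := h0 x
    show v x * (Complex.exp (-l x) * -(fderiv ℝ l x a)) + Complex.exp (-l x) * (fderiv ℝ v x a) = 0
    rw [h2]
    field_simp
    ring
  have hconst : ∀ x y, v x * Complex.exp (-l x) = v y * Complex.exp (-l y) :=
    is_const_of_fderiv_eq_zero (𝕜 := ℝ) (fun x => (hq x).differentiableAt)
      (fun x => (hq x).fderiv)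
  intro x
  have h3 := hconst x x₁
  rw [h1 x₁ hx₁.ge, hl0 x₁ hx₁.ge, neg_zero, Complex.exp_zero, one_mul, Complex.exp_neg] at h3
  have h4 := Complex.exp_ne_zero (l x)
  field_simp at h3
  exact h3.symm

end Pool.Agent.Helper9.LE
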